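import Mathlib

set_option autoImplicit false

/-!
# Gaps between record values of the normalised surplus on odd non-deficient numbers

The gaps `g(b_{j+1}) - g(b_j)` between consecutive record values are unbounded.  The records used
are the products of the first odd primes: such a product `N` beats every smaller odd number by
at least `√N / p`, where `p` is its largest prime factor.
-/

namespace Pool.Agent.Results.MP_e83726_nt.UnboundedGaps

open Finset

/-- `H n = ∏_{p ∣ n} p / (p - 1) = n / φ n`. -/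
noncomputable def H (n : ℕ) : ℝ := ∏ p ∈ n.primeFactors, (p : ℝ) / ((p : ℝ) - 1)

/-- The surplus `S n = H n - 2`. -/
noncomputable def S (n : ℕ) : ℝ := H n - 2

/-- The normalised surplus `g n = S n * n ^ (1/2)`. -/
noncomputable def g (n : ℕ) : ℝ := S n * Real.sqrt n

/-- `n` is odd and non-deficient, that is `σ(n) ≥ 2 n`. -/
def OddNonDeficient (n : ℕ) : Prop := Odd n ∧ 2 * n ≤ ∑ d ∈ n.divisors, d

/-- `B₁`: the odd non-deficient numbers that set a record for `g` among the odd non-deficient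
numbers. -/
def B : Set ℕ := {n | OddNonDeficient n ∧ ∀ k, OddNonDeficient k → k < n → g k < g n}

/-- the `i`-th odd prime: `P 0 = 3`, `P 1 = 5`, ... -/
noncomputable def P (i : ℕ) : ℕ := Nat.nth Nat.Prime (i + 1)

lemma P_prime (i : ℕ) : (P i).Prime := Nat.prime_nth_prime _

lemma P_mono : StrictMono P := by
  intro a b h
  exact Nat.nth_strictMono Nat.infinite_setOfPred_prime (by omega)

lemma P_zero : P 0 = 3 := Nat.nth_prime_one_eq_three

lemma three_le_P (i : ℕ) : 3 ≤ P i := by
  rw [← P_zero]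
  exact P_mono.monotone (Nat.zero_le i)

lemma P_odd (i : ℕ) : Odd (P i) :=
  (P_prime i).odd_of_ne_two (by have := three_le_P i; omega)

/-- the product of the first `k` odd primes -/
noncomputable def N (k : ℕ) : ℕ := ∏ i ∈ range k, P i

/-- the value of `H` on the product of the first `k` odd primes -/
noncomputable def HN (k : ℕ) : ℝ := ∏ i ∈ range k, (P i : ℝ) / ((P i : ℝ) - 1)

lemma N_succ (k : ℕ) : N (k + 1) = N k * P k := by
  unfold N
  rw [prod_range_succ]

lemma HN_succ (k : ℕ) : HN (k + 1) = HN k * ((P k : ℝ) / ((P k : ℝ) - 1)) := by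
  unfold HN
  rw [prod_range_succ]

lemma N_pos (k : ℕ) : 0 < N k := Finset.prod_pos fun i _ => (P_prime i).pos

lemma P_not_dvd_N (k : ℕ) : (N k).Coprime (P k) := by
  unfold N
  apply Nat.Coprime.prod_left
  intro i hi
  exact (Nat.coprime_primes (P_prime i) (P_prime k)).2 (P_mono (mem_range.1 hi)).ne

lemma primeFactors_N (k : ℕ) : (N k).primeFactors = (range k).image P := by
  induction k with
  | zero => simp [N]
  | succ k ih =>
    rw [N_succ, Nat.Coprime.primeFactors_mul (P_not_dvd_N k), ih, (P_prime k).primeFactors,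
      range_add_one, image_insert, union_comm]
    rfl

lemma H_N (k : ℕ) : H (N k) = HN k := by
  unfold H HN
  rw [primeFactors_N, prod_image]
  intro a _ b _ h
  exact P_mono.injective h

/-- A finite set of `k` odd primes has a maximum at least the `k`-th odd prime. -/
lemma le_max {T : Finset ℕ} (hT : ∀ p ∈ T, p.Prime ∧ Odd p) {q : ℕ} (hq : ∀ p ∈ T, p ≤ q)
    {k : ℕ} (hk : k + 1 ≤ T.card) : P k ≤ q := by
  by_contra hlt
  push Not at hlt
  have h1 : ¬ (Nat.nth Nat.Prime (k + 1) < q + 1) := by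
    have : q + 1 ≤ P k := hlt
    exact not_lt.2 this
  have h2 : k + 1 < Nat.count Nat.Prime (q + 1) := by
    rw [Nat.count_eq_card_filter_range]
    have h3 : insert 2 T ⊆ (range (q + 1)).filter Nat.Prime := by
      intro p hp
      rw [mem_insert] at hp
      rw [mem_filter, mem_range]
      rcases hp with rfl | hp
      · obtain ⟨p, hp⟩ : T.Nonempty := by
          rw [← card_pos]; omega
        have h4 := (hT p hp).1.two_le
        have h5 := hq p hp
        exact ⟨by omega, Nat.prime_two⟩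
      · exact ⟨by have := hq p hp; omega, (hT p hp).1⟩
    have h4 := card_le_card h3
    rw [card_insert_of_notMem] at h4
    · exact lt_of_lt_of_le (by omega : k + 1 < T.card + 1) h4
    · intro h
      have := (hT 2 h).2
      exact absurd this (by decide)
  exact h1 (Nat.nth_lt_of_lt_count h2)

/-- `k` distinct odd primes: the product is at least `N k` and `∏ p / (p - 1)` at most `HN k`. -/
lemma extremal (k : ℕ) : ∀ T : Finset ℕ, (∀ p ∈ T, p.Prime ∧ Odd p) → T.card = k →
    N k ≤ ∏ p ∈ T, p ∧ ∏ p ∈ T, (p : ℝ) / ((p : ℝ) - 1) ≤ HN k := by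
  induction k with
  | zero =>
    intro T hT h0
    rw [card_eq_zero] at h0
    subst h0
    simp [N, HN]
  | succ k ih =>
    intro T hT hk
    have hne : T.Nonempty := by rw [← card_pos]; omega
    set q := T.max' hne with hq
    have hqT : q ∈ T := T.max'_mem hne
    have h1 : P k ≤ q := le_max hT (fun p hp => T.le_max' p hp) (by omega)
    obtain ⟨i1, i2⟩ := ih (T.erase q) (fun p hp => hT p (mem_of_mem_erase hp))
      (by rw [card_erase_of_mem hqT]; omega)
    have e1 : (∏ p ∈ T.erase q, p) * q = ∏ p ∈ T, p := prod_erase_mul T _ hqT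
    have e2 : (∏ p ∈ T.erase q, (p : ℝ) / ((p : ℝ) - 1)) * ((q : ℝ) / ((q : ℝ) - 1)) =
      ∏ p ∈ T, (p : ℝ) / ((p : ℝ) - 1) := prod_erase_mul T _ hqT
    constructor
    · rw [← e1, N_succ]
      exact Nat.mul_le_mul i1 h1
    · rw [← e2, HN_succ]
      have h3 : (3 : ℝ) ≤ P k := by exact_mod_cast three_le_P k
      have h4 : (P k : ℝ) ≤ q := by exact_mod_cast h1
      have h5 : (q : ℝ) / ((q : ℝ) - 1) ≤ (P k : ℝ) / ((P k : ℝ) - 1) := by
        rw [div_le_div_iff₀ (by linarith) (by linarith)]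
        nlinarith
      have h6 : (0 : ℝ) ≤ (q : ℝ) / ((q : ℝ) - 1) := by
        apply div_nonneg <;> linarith
      have h7 : (0 : ℝ) ≤ HN k := by
        unfold HN
        apply prod_nonneg
        intro i _
        have : (3 : ℝ) ≤ P i := by exact_mod_cast three_le_P i
        apply div_nonneg <;> linarith
      exact mul_le_mul i2 h5 h6 h7

lemma HN_mono : Monotone HN := by
  apply monotone_nat_of_le_succ
  intro k
  rw [HN_succ]
  have h3 : (3 : ℝ) ≤ P k := by exact_mod_cast three_le_P k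
  have h7 : (0 : ℝ) ≤ HN k := by
    unfold HN
    apply prod_nonneg
    intro i _
    have : (3 : ℝ) ≤ P i := by exact_mod_cast three_le_P i
    apply div_nonneg <;> linarith
  have h8 : (1 : ℝ) ≤ (P k : ℝ) / ((P k : ℝ) - 1) := by
    rw [le_div_iff₀ (by linarith)]
    linarith
  nlinarith

lemma N_mono : Monotone N := by
  apply monotone_nat_of_le_succ
  intro k
  rw [N_succ]
  exact Nat.le_mul_of_pos_right _ (P_prime k).pos

/-- an odd number below `N (k + 1)` has `H ≤ HN k` -/
lemma H_le {k m : ℕ} (hm : Odd m) (hlt : m < N (k + 1)) : H m ≤ HN k := by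
  have hm0 : 0 < m := hm.pos
  have hT : ∀ p ∈ m.primeFactors, p.Prime ∧ Odd p := by
    intro p hp
    have hp' := Nat.prime_of_mem_primeFactors hp
    refine ⟨hp', ?_⟩
    exact Odd.of_dvd_nat hm (Nat.dvd_of_mem_primeFactors hp)
  obtain ⟨h1, h2⟩ := extremal _ m.primeFactors hT rfl
  have h3 : ∏ p ∈ m.primeFactors, p ≤ m := Nat.le_of_dvd hm0 (Nat.prod_primeFactors_dvd m)
  have h4 : m.primeFactors.card ≤ k := by
    by_contra hlt'
    push Not at hlt'
    have := N_mono (show k + 1 ≤ m.primeFactors.card by omega)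
    omega
  exact h2.trans (HN_mono h4)

lemma P_five : P 0 = 3 ∧ P 1 = 5 ∧ P 2 = 7 ∧ P 3 = 11 ∧ P 4 = 13 := by
  unfold P
  refine ⟨Nat.nth_count (p := Nat.Prime) (n := 3) (by norm_num) |> fun h => ?_,
    Nat.nth_count (p := Nat.Prime) (n := 5) (by norm_num) |> fun h => ?_,
    Nat.nth_count (p := Nat.Prime) (n := 7) (by norm_num) |> fun h => ?_,
    Nat.nth_count (p := Nat.Prime) (n := 11) (by norm_num) |> fun h => ?_,
    Nat.nth_count (p := Nat.Prime) (n := 13) (by norm_num) |> fun h => ?_⟩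
  · rwa [show Nat.count Nat.Prime 3 = 1 by decide] at h
  · rwa [show Nat.count Nat.Prime 5 = 2 by decide] at h
  · rwa [show Nat.count Nat.Prime 7 = 3 by decide] at h
  · rwa [show Nat.count Nat.Prime 11 = 4 by decide] at h
  · rwa [show Nat.count Nat.Prime 13 = 5 by decide] at h

lemma N_five : N 5 = 15015 := by
  obtain ⟨h0, h1, h2, h3, h4⟩ := P_five
  unfold N
  simp [prod_range_succ, h0, h1, h2, h3, h4]

lemma HN_five : 2 ≤ HN 5 := by
  obtain ⟨h0, h1, h2, h3, h4⟩ := P_five
  unfold HN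
  simp [prod_range_succ, h0, h1, h2, h3, h4]
  norm_num

lemma N_odd (k : ℕ) : Odd (N k) := by
  induction k with
  | zero => simp [N]
  | succ k ih => rw [N_succ]; exact ih.mul (P_odd k)

lemma nonDef {k : ℕ} (hk : 5 ≤ k) : OddNonDeficient (N k) := by
  refine ⟨N_odd k, ?_⟩
  induction k, hk using Nat.le_induction with
  | base =>
    rw [N_five]
    decide +kernel
  | succ k hk ih =>
    rw [N_succ, Nat.Coprime.sum_divisors_mul (P_not_dvd_N k), (P_prime k).sum_divisors]
    nlinarith [(P_prime k).pos]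

/-- the key inequality -/
lemma gap {k m : ℕ} (hk : 5 ≤ k) (hm : Odd m) (hlt : m < N (k + 1)) :
    Real.sqrt (N (k + 1)) / P k ≤ g (N (k + 1)) - g m := by
  have h1 : H m ≤ HN k := H_le hm hlt
  have h2 : (2 : ℝ) ≤ HN k := HN_five.trans (HN_mono hk)
  have h3 : g m ≤ (HN k - 2) * Real.sqrt (N (k + 1)) := by
    unfold g S
    have h4 : Real.sqrt m ≤ Real.sqrt (N (k + 1)) := by
      apply Real.sqrt_le_sqrt
      exact_mod_cast hlt.le
    have h5 := Real.sqrt_nonneg (m : ℝ)
    calc (H m - 2) * Real.sqrt m ≤ (HN k - 2) * Real.sqrt m := by gcongr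
      _ ≤ _ := by
        apply mul_le_mul_of_nonneg_left h4
        linarith
  have h6 : g (N (k + 1)) = (HN (k + 1) - 2) * Real.sqrt (N (k + 1)) := by
    unfold g S
    rw [H_N]
  have h7 : (3 : ℝ) ≤ P k := by exact_mod_cast three_le_P k
  have h8 : HN (k + 1) - HN k = HN k / ((P k : ℝ) - 1) := by
    rw [HN_succ]
    have : (P k : ℝ) - 1 ≠ 0 := by linarith
    field_simp
    ring
  have h9 : (1 : ℝ) / P k ≤ HN k / ((P k : ℝ) - 1) := by
    rw [div_le_div_iff₀ (by linarith) (by linarith)]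
    nlinarith
  rw [h6]
  have h10 := Real.sqrt_nonneg (N (k + 1) : ℝ)
  calc Real.sqrt (N (k + 1)) / P k = Real.sqrt (N (k + 1)) * (1 / P k) := by ring
    _ ≤ Real.sqrt (N (k + 1)) * (HN (k + 1) - HN k) := by
      rw [h8]
      exact mul_le_mul_of_nonneg_left h9 h10
    _ = (HN (k + 1) - 2) * Real.sqrt (N (k + 1)) - (HN k - 2) * Real.sqrt (N (k + 1)) := by ring
    _ ≤ _ := by linarith

lemma mem_B {k : ℕ} (hk : 5 ≤ k) : N (k + 1) ∈ B := by
  refine ⟨nonDef (by omega), fun m hm hlt => ?_⟩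
  have h1 := gap hk hm.1 hlt
  have h2 : 0 < Real.sqrt (N (k + 1)) / P k := by
    apply div_pos
    · apply Real.sqrt_pos.2
      exact_mod_cast N_pos _
    · exact_mod_cast (P_prime k).pos
  linarith

/-- Bertrand's postulate: consecutive odd primes -/
lemma P_succ_le (k : ℕ) : P (k + 1) ≤ 2 * P k := by
  obtain ⟨q, hq, h1, h2⟩ := Nat.exists_prime_lt_and_le_two_mul (P k) (P_prime k).pos.ne'
  refine le_trans ?_ h2
  by_contra hlt
  push Not at hlt
  have h3 : Nat.nth Nat.Prime (k + 1) < q := h1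
  have h4 : q < Nat.nth Nat.Prime (k + 1 + 1) := hlt
  have h5 := Nat.lt_nth_iff_count_lt (p := Nat.Prime) Nat.infinite_setOfPred_prime (a := q)
    (b := k + 1 + 1)
  have h6 : Nat.nth Nat.Prime (Nat.count Nat.Prime q) = q := Nat.nth_count hq
  rw [← h6] at h3 h4
  rw [(Nat.nth_strictMono Nat.infinite_setOfPred_prime).lt_iff_lt] at h3 h4
  omega

lemma N_ge (k : ℕ) : 3 ^ k ≤ N k := by
  induction k with
  | zero => simp [N]
  | succ k ih =>
    rw [N_succ, pow_succ]
    exact Nat.mul_le_mul ih (three_le_P k)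

lemma big (M : ℝ) : ∃ k : ℕ, 6 ≤ k ∧ M < Real.sqrt (N (k + 1)) / P k := by
  obtain ⟨j, hj⟩ := pow_unbounded_of_one_lt (2 * M ^ 2 + 2) (show (1 : ℝ) < 3 by norm_num)
  refine ⟨max 6 (j + 1), le_max_left _ _, ?_⟩
  obtain ⟨i, hi⟩ : ∃ i, max 6 (j + 1) = i + 1 := ⟨max 6 (j + 1) - 1, by omega⟩
  have hij : j ≤ i := by omega
  rw [hi]
  -- N (i + 2) = N i * P i * P (i + 1)
  have h1 : (N (i + 1 + 1) : ℝ) = N i * P i * P (i + 1) := by
    rw [N_succ, N_succ]
    push_cast
    ring
  have h2 : (P (i + 1) : ℝ) ≤ 2 * P i := by exact_mod_cast P_succ_le i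
  have h3 : (0 : ℝ) < P (i + 1) := by exact_mod_cast (P_prime (i + 1)).pos
  have h4 : (2 * M ^ 2 + 2 : ℝ) < N i := by
    have h5 : ((3 ^ i : ℕ) : ℝ) ≤ N i := by exact_mod_cast N_ge i
    push_cast at h5
    have h6 : (3 : ℝ) ^ j ≤ 3 ^ i := pow_le_pow_right₀ (by norm_num) hij
    linarith
  rw [lt_div_iff₀ h3]
  by_cases hM : M < 0
  · have h5 := Real.sqrt_nonneg (N (i + 1 + 1) : ℝ)
    nlinarith
  push Not at hM
  apply Real.lt_sqrt_of_sq_lt
  rw [h1]
  have h5 : (0 : ℝ) < P i := by exact_mod_cast (P_prime i).pos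
  have h6 : (M * P (i + 1)) ^ 2 = M ^ 2 * P (i + 1) * P (i + 1) := by ring
  rw [h6]
  apply mul_lt_mul_of_pos_right _ h3
  calc M ^ 2 * P (i + 1) ≤ M ^ 2 * (2 * P i) := by gcongr
    _ = (2 * M ^ 2) * P i := by ring
    _ < N i * P i := by
      apply mul_lt_mul_of_pos_right _ h5
      linarith

lemma B_infinite : B.Infinite := by
  apply Set.infinite_of_not_bddAbove
  rintro ⟨b, hb⟩
  have h1 := hb (mem_B (k := b + 5) (by omega))
  have h2 := N_ge (b + 5 + 1)
  have h3 : b + 5 + 1 < 3 ^ (b + 5 + 1) := Nat.lt_pow_self (by norm_num)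
  omega

/-- **Main result.**  The set `B₁` of records is infinite, and, with its elements listed in
increasing order as `nth 0 < nth 1 < ...`, the gaps between consecutive record values of `g` are
unbounded. -/
theorem result : B.Infinite ∧
    ∀ M : ℝ, ∃ j : ℕ, M < g (Nat.nth (· ∈ B) (j + 1)) - g (Nat.nth (· ∈ B) j) := by
  classical
  refine ⟨B_infinite, fun M => ?_⟩
  obtain ⟨k, hk, hM⟩ := big M
  have h1 : N (k + 1) ∈ B := mem_B (by omega)
  have h2 : N k ∈ B := by
    obtain ⟨i, rfl⟩ : ∃ i, k = i + 1 := ⟨k - 1, by omega⟩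
    exact mem_B (by omega)
  have h3 : Nat.nth (· ∈ B) (Nat.count (· ∈ B) (N (k + 1))) = N (k + 1) := Nat.nth_count h1
  have h4 : N k < N (k + 1) := by
    rw [N_succ]
    have := three_le_P k
    have := N_pos k
    nlinarith
  have h5 : Nat.count (· ∈ B) (N k) < Nat.count (· ∈ B) (N (k + 1)) :=
    Nat.count_strict_mono h2 h4
  obtain ⟨j, hj⟩ : ∃ j, Nat.count (· ∈ B) (N (k + 1)) = j + 1 :=
    ⟨Nat.count (· ∈ B) (N (k + 1)) - 1, by omega⟩
  rw [hj] at h3
  refine ⟨j, ?_⟩
  rw [h3]
  have h6 : Nat.nth (· ∈ B) j ∈ B := Nat.nth_mem_of_infinite B_infinite j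
  have h7 : Nat.nth (· ∈ B) j < N (k + 1) := by
    rw [← h3]
    exact Nat.nth_strictMono B_infinite (Nat.lt_succ_self j)
  exact lt_of_lt_of_le hM (gap (by omega) h6.1.1 h7)

end Pool.Agent.Results.MP_e83726_nt.UnboundedGaps
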